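import Pool.Agent.Q70.Heis8

/-!
# MP_442888: a smooth, measurably non-trivial time change of a uniquely ergodic Heisenberg
nilflow which is not weakly mixing

The definitions (Heisenberg group `H`, lattice `Γ`, nilmanifold `M`, Haar measure `μ`, nilflow,
unique ergodicity, parabolicity, smoothness, time change, measurable triviality, mixing and weak
mixing) are in `Pool.Agent.Q70.Heis1`.

Construction.  The direction is `X = (1, θ, 0)` with a Liouville slope `θ`, whose convergent-like
denominators `Q_k` grow very fast, and `α = 1 + ∑ X v_k`, where `v_k` is the function
`4^k V_k(Q_k y - P_k x)` and `V_k` is a smooth step function with values in `{0, 1}` off a set of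
measure `2^{-k-1}`.  As `v_k` is an integer off a small set, the sum of the `v_k` converges
modulo one almost everywhere, and gives an eigenfunction of the time change; but the increments
of the sum along the flow are not tight, so that `α` is not measurably cohomologous to a constant.
-/

set_option autoImplicit false

open Q70.Heis

/-- There are a uniquely ergodic parabolic nilflow on the Heisenberg nilmanifold and a positive
`C^∞` function `α` which is not measurably cohomologous to a constant, such that the time change
of the flow by `α` (the flow generated by `X/α`) is not weakly mixing, hence not mixing. -/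
theorem Pool.Agent.Results.MP_442888_an.NotWeaklyMixingTimeChange.result :
    ∃ X : ℝ × ℝ × ℝ, UniquelyErgodic (nilflow X) ∧ Parabolic X ∧
      ∃ α : M → ℝ, Smooth α ∧ (∀ p, 0 < α p) ∧ ¬ MeasurablyTrivial (nilflow X) α ∧
        (∃ ψ, IsTimeChange (nilflow X) α ψ) ∧
        ∀ ψ, IsTimeChange (nilflow X) α ψ →
          ¬ WeakMixing ψ (weighted α) ∧ ¬ Mixing ψ (weighted α) := by
  obtain ⟨d⟩ := exists_data
  refine ⟨dir d.θ, uniquelyErgodic d.θ d.irr, parabolic_dir d.θ, d.α, d.smooth_α,
    fun p => lt_of_lt_of_le (by norm_num) (d.α_lower p), d.nontrivial_α, d.exists_timeChange,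
    fun ψ hψ => ⟨d.not_weakMixing hψ, d.not_mixing hψ⟩⟩
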